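import Pool.Agent.H44.FB.Basics

/-!
# Disjoint copies (DUN)
-/

set_option autoImplicit false

namespace Pool.Agent.H54.FB

open Pool.Agent.H68.BP Pool.Agent.H58.SF Pool.Agent.H53.NR
open Pool.Agent.H57.AR (tp ty Ty)
open Pool.Agent.H44.KR Pool.Agent.H44.FB
open Function Classical

theorem pf_DUN : T_DUN := by
  intro V ρ 𝔹 hB I hI X hX G hG
  have key : ∀ s : Finset I, ∃ H : (i : I) → X i → V,
      (∀ i ∈ s, tp 𝔹 (H i) = tp 𝔹 (G i)) ∧
      ∀ i ∈ s, ∀ j ∈ s, i ≠ j → ∀ x y, H i x ≠ H j y := by
    intro s
    induction s using Finset.induction_on with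
    | empty => exact ⟨G, by simp, by simp⟩
    | insert i₀ s hi ih =>
      obtain ⟨H, h1, h2⟩ := ih
      have hft : ∀ j, Fintype (X j) := fun j => Fintype.ofFinite _
      obtain ⟨x', e1, -, e3⟩ := hB.amg (X i₀) ∅ (G i₀) (G i₀)
        (s.biUnion fun j => (Finset.univ : Finset (X j)).image (H j)) (tpo_refl ∅ (G i₀))
      have e4 : ∀ w j, j ∈ s → ∀ y, x' w ≠ H j y := by
        intro w j hj y he
        obtain ⟨a, ha, -⟩ := e3 w (Finset.mem_biUnion.2 ⟨j, hj,
          Finset.mem_image.2 ⟨y, Finset.mem_univ y, he.symm⟩⟩)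
        exact ha
      have hne : ∀ j ∈ s, j ≠ i₀ := fun j hj h => hi (h ▸ hj)
      refine ⟨update H i₀ x', ?_, ?_⟩
      · intro i hi'
        rcases Finset.mem_insert.1 hi' with h | h
        · subst h
          rw [update_self]
          exact e1
        · rw [update_of_ne (hne i h)]
          exact h1 i h
      · intro i hi' j hj' hij x y
        rcases Finset.mem_insert.1 hi' with h | h
        · subst h
          rcases Finset.mem_insert.1 hj' with h' | h'
          · exact absurd h'.symm hij
          · rw [update_self, update_of_ne (hne j h')]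
            exact e4 x j h' y
        · rcases Finset.mem_insert.1 hj' with h' | h'
          · subst h'
            rw [update_self, update_of_ne (hne i h)]
            exact (e4 y i h x).symm
          · rw [update_of_ne (hne i h), update_of_ne (hne j h')]
            exact h2 i h j h' hij x y
  have : Fintype I := Fintype.ofFinite _
  obtain ⟨H, h1, h2⟩ := key Finset.univ
  refine ⟨fun q => H q.1 q.2, ?_, fun i => h1 i (Finset.mem_univ i)⟩
  rintro ⟨i, x⟩ ⟨j, y⟩ h
  by_cases hij : i = j
  · subst hij
    have h3 : H i x = H i y := h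
    have h4 : x = y := hG i ((eq_of_tp (h1 i (Finset.mem_univ i)) x y).1 h3)
    rw [h4]
  · exact absurd h (h2 i (Finset.mem_univ i) j (Finset.mem_univ j) hij x y)

end Pool.Agent.H54.FB
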